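import Mathlib

/-!
Covering `d`-subcubes by `l`-subcubes (MP_7c0edd_co): a logarithmic lower bound.
-/

open Finset

namespace Pool.Agent.W397.HC

section count

variable {ρ ι : Type*} [Fintype ρ] [DecidableEq ρ] [Fintype ι] [DecidableEq ι]

/-- the vectors which agree with the partial vector `v` -/
def agr (v : ρ → Option Bool) : Finset (ρ → Bool) :=
  Fintype.piFinset (fun r => if v r = none then (univ : Finset Bool) else {(v r).getD false})

theorem mem_agr (v : ρ → Option Bool) (x : ρ → Bool) :
    x ∈ agr v ↔ ∀ r b, v r = some b → x r = b := by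
  unfold agr
  rw [Fintype.mem_piFinset]
  constructor
  · intro h r b hb
    have := h r
    simp [hb] at this
    exact this
  · intro h r
    by_cases hr : v r = none
    · simp [hr]
    · obtain ⟨b, hb⟩ := Option.ne_none_iff_exists'.1 hr
      simp [hb, h r b hb]

/-- the number of specified entries -/
def m (v : ρ → Option Bool) : ℕ := #{r | v r ≠ none}

theorem card_agr (v : ρ → Option Bool) : (agr v).card * 2 ^ (m v) = 2 ^ (Fintype.card ρ) := by
  unfold agr m
  rw [Fintype.card_piFinset]
  have h1 : ∀ r, (if v r = none then (univ : Finset Bool) else {(v r).getD false}).card =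
      if v r = none then 2 else 1 := by
    intro r
    split_ifs <;> simp
  rw [prod_congr rfl (fun r _ => h1 r), prod_ite, prod_const, prod_const_one, mul_one, ← pow_add]
  congr 1
  have := card_filter_add_card_filter_not (s := (univ : Finset ρ)) (fun r => v r = none)
  rw [card_univ] at this
  exact this

/-- the complementary partial vector -/
def opp (v : ρ → Option Bool) : ρ → Option Bool := fun r => (v r).map (!·)

theorem m_opp (v : ρ → Option Bool) : m (opp v) = m v := by
  unfold m opp
  congr 1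
  ext r
  simp

theorem disj (n : ι → ρ → Option Bool)
    (h : ∀ i j, i ≠ j → ∀ a b : Bool, ∃ r, n i r = some a ∧ n j r = some b)
    (hpos : ∀ i, ∃ r, n i r ≠ none) :
    (∑ i, 2 * (2 : ℝ)⁻¹ ^ (m (n i))) ≤ 1 := by
  classical
  have hd : ((univ : Finset (ι × Bool)) : Set (ι × Bool)).PairwiseDisjoint
      (fun p => agr (if p.2 then n p.1 else opp (n p.1))) := by
    rintro ⟨i, a⟩ - ⟨j, b⟩ - hne
    rw [Function.onFun, Finset.disjoint_left]
    intro x hx hy
    rw [mem_agr] at hx hy
    by_cases hij : i = j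
    · subst hij
      have hab : a ≠ b := fun h => hne (by rw [h])
      obtain ⟨r, hr⟩ := hpos i
      obtain ⟨c, hc⟩ := Option.ne_none_iff_exists'.1 hr
      cases a <;> cases b <;> simp only [Bool.false_eq_true, if_false, if_true, ne_eq,
        not_true_eq_false] at hab hx hy
      · have e1 := hx r (!c) (by simp [opp, hc])
        have e2 := hy r c hc
        rw [e1] at e2
        cases c <;> simp at e2
      · have e1 := hy r (!c) (by simp [opp, hc])
        have e2 := hx r c hc
        rw [e1] at e2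
        cases c <;> simp at e2
    · cases a <;> cases b <;> simp only [Bool.false_eq_true, if_false, if_true] at hx hy
      · obtain ⟨r, h1, h2⟩ := h i j hij true false
        have e1 := hx r false (by simp [opp, h1])
        have e2 := hy r true (by simp [opp, h2])
        rw [e1] at e2; simp at e2
      · obtain ⟨r, h1, h2⟩ := h i j hij true true
        have e1 := hx r false (by simp [opp, h1])
        have e2 := hy r true h2
        rw [e1] at e2; simp at e2
      · obtain ⟨r, h1, h2⟩ := h i j hij true true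
        have e1 := hy r false (by simp [opp, h2])
        have e2 := hx r true h1
        rw [e1] at e2; simp at e2
      · obtain ⟨r, h1, h2⟩ := h i j hij true false
        have e1 := hx r true h1
        have e2 := hy r false h2
        rw [e1] at e2; simp at e2
  have hcard := card_biUnion (s := (univ : Finset (ι × Bool)))
    (t := fun p => agr (if p.2 then n p.1 else opp (n p.1))) (fun x hx y hy hxy => hd hx hy hxy)
  have hle : ((univ : Finset (ι × Bool)).biUnion
      (fun p => agr (if p.2 then n p.1 else opp (n p.1)))).card ≤ 2 ^ (Fintype.card ρ) := by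
    refine (card_le_univ _).trans (le_of_eq ?_)
    simp
  rw [hcard] at hle
  have hR : (∑ p : ι × Bool, ((agr (if p.2 then n p.1 else opp (n p.1))).card : ℝ)) ≤
      2 ^ (Fintype.card ρ) := by exact_mod_cast hle
  have hc : ∀ v : ρ → Option Bool, ((agr v).card : ℝ) = 2 ^ (Fintype.card ρ) * (2 : ℝ)⁻¹ ^ (m v) := by
    intro v
    have := card_agr v
    have h2 : ((agr v).card : ℝ) * 2 ^ (m v) = 2 ^ (Fintype.card ρ) := by exact_mod_cast this
    rw [← h2, mul_assoc, ← mul_pow]
    norm_num
  have hs : (∑ p : ι × Bool, ((agr (if p.2 then n p.1 else opp (n p.1))).card : ℝ)) =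
      2 ^ (Fintype.card ρ) * ∑ i, 2 * (2 : ℝ)⁻¹ ^ (m (n i)) := by
    rw [Fintype.sum_prod_type, mul_sum]
    refine sum_congr rfl (fun i _ => ?_)
    rw [Fintype.sum_bool]
    simp only [if_true, Bool.false_eq_true, if_false]
    rw [hc, hc, m_opp]
    ring
  rw [hs] at hR
  have hp : (0 : ℝ) < 2 ^ (Fintype.card ρ) := by positivity
  by_contra hcon
  push Not at hcon
  have : (2 : ℝ) ^ (Fintype.card ρ) * 1 < 2 ^ (Fintype.card ρ) * ∑ i, 2 * (2 : ℝ)⁻¹ ^ (m (n i)) :=
    mul_lt_mul_of_pos_left hcon hp
  linarith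

/-- the arithmetic-geometric mean inequality -/
theorem amgm (k : ι → ℕ) (hn : 0 < Fintype.card ι)
    (h : (∑ i, 2 * (2 : ℝ)⁻¹ ^ (k i)) ≤ 1) :
    (Fintype.card ι : ℝ) * (1 + Real.logb 2 (Fintype.card ι)) ≤ ∑ i, (k i : ℝ) := by
  set n : ℝ := (Fintype.card ι : ℝ) with hndef
  have hn' : 0 < n := Nat.cast_pos.2 hn
  have h1 := Real.geom_mean_le_arith_mean_weighted (univ : Finset ι) (fun _ => n⁻¹)
    (fun i => 2 * (2 : ℝ)⁻¹ ^ (k i)) (fun i _ => by positivity)
    (by rw [sum_const, card_univ, nsmul_eq_mul]; exact mul_inv_cancel₀ hn'.ne')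
    (fun i _ => by positivity)
  rw [← mul_sum] at h1
  have h2 : (∏ i : ι, (2 * (2 : ℝ)⁻¹ ^ (k i)) ^ n⁻¹) ≤ n⁻¹ :=
    h1.trans (by simpa using mul_le_mul_of_nonneg_left h (inv_nonneg.2 hn'.le))
  have h3 : ∀ i, (2 * (2 : ℝ)⁻¹ ^ (k i)) = (2 : ℝ) ^ (1 - (k i : ℝ)) := by
    intro i
    rw [Real.rpow_sub (by norm_num), Real.rpow_one, Real.rpow_natCast, inv_pow]
    rfl
  have h4 : (∏ i : ι, (2 * (2 : ℝ)⁻¹ ^ (k i)) ^ n⁻¹) =
      (2 : ℝ) ^ (∑ i : ι, (1 - (k i : ℝ)) * n⁻¹) := by
    rw [Real.rpow_sum_of_pos (by norm_num)]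
    refine prod_congr rfl (fun i _ => ?_)
    rw [h3, ← Real.rpow_mul (by norm_num)]
  rw [h4] at h2
  have h5 : (∑ i : ι, (1 - (k i : ℝ)) * n⁻¹) ≤ Real.logb 2 n⁻¹ := by
    rw [Real.le_logb_iff_rpow_le (by norm_num) (by positivity)]
    exact h2
  rw [Real.logb_inv, ← sum_mul, sum_sub_distrib, sum_const, card_univ, nsmul_eq_mul, mul_one] at h5
  have h6 : ((n - ∑ i, (k i : ℝ)) * n⁻¹) * n ≤ (-Real.logb 2 n) * n :=
    mul_le_mul_of_nonneg_right h5 hn'.le
  rw [mul_assoc, inv_mul_cancel₀ hn'.ne', mul_one] at h6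
  nlinarith

end count

end Pool.Agent.W397.HC
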