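import Pool.Agent.W397.HC.Small

/-!
Covering `d`-subcubes by `l`-subcubes (MP_7c0edd_co): the density bound from the cube of
dimension `d + 1`.
-/

open Finset

namespace Pool.Agent.W397.HC

theorem dens_one {l d : ℕ} (hld : l < d) (k : ℕ) :
    ∀ S : Finset (Subcube (d + 1 + k)), IsCovering l d (d + 1 + k) S →
      ((⌈(2 * ((d : ℝ) + 1)) / ((d : ℝ) + 1 - l)⌉₊ : ℝ) * (((d : ℝ) + 1 - l) / (2 * ((d : ℝ) + 1))) *
        (1 / (2 ^ (d - l) * (d.choose l : ℝ)))) *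
        (2 ^ (d + 1 + k - l) * ((d + 1 + k).choose l : ℝ)) ≤ S.card := by
  have hl : (l : ℝ) < d := by exact_mod_cast hld
  have h7 : (0 : ℝ) < (d : ℝ) + 1 - l := by linarith
  induction k with
  | zero =>
    intro S hS
    have h := lower_one S hS
    have h1 : ⌈(2 * ((d : ℝ) + 1)) / ((d : ℝ) + 1 - l)⌉₊ ≤ S.card := by
      refine Nat.ceil_le.2 ?_
      rw [div_le_iff₀ h7]
      exact h
    have hd1 : ((d + 1).choose l : ℝ) * ((d : ℝ) + 1 - l) = ((d : ℝ) + 1) * (d.choose l : ℝ) :=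
      chooseR hld.le
    have hp : (2 : ℝ) ^ (d + 1 + 0 - l) = 2 * 2 ^ (d - l) := by
      rw [add_zero, Nat.sub_add_comm hld.le, pow_succ]; ring
    have hc0 : (0 : ℝ) < d.choose l := by exact_mod_cast Nat.choose_pos hld.le
    have hd0 : ((d : ℝ) + 1) ≠ 0 := by positivity
    have h1' : ((⌈(2 * ((d : ℝ) + 1)) / ((d : ℝ) + 1 - l)⌉₊ : ℕ) : ℝ) ≤ (S.card : ℝ) := by
      exact_mod_cast h1
    refine le_trans (le_of_eq ?_) h1'
    rw [hp]
    generalize ((⌈(2 * ((d : ℝ) + 1)) / ((d : ℝ) + 1 - l)⌉₊ : ℕ) : ℝ) = K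
    have e1 : K * (((d : ℝ) + 1 - l) / (2 * ((d : ℝ) + 1))) *
        (1 / (2 ^ (d - l) * (d.choose l : ℝ))) * (2 * 2 ^ (d - l) * ((d + 1 + 0).choose l : ℝ)) =
        K * (1 / (((d : ℝ) + 1) * (d.choose l : ℝ))) *
          (((d + 1).choose l : ℝ) * ((d : ℝ) + 1 - l)) := by
      rw [add_zero]
      field_simp
    rw [e1, hd1]
    field_simp
  | succ k ih =>
    intro S hS
    exact step (by omega) _ ih S hS

theorem main_one {l d n : ℕ} (hld : l < d) (hn : d + 1 ≤ n) :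
    ((⌈(2 * ((d : ℝ) + 1)) / ((d : ℝ) + 1 - l)⌉₊ : ℝ) * (((d : ℝ) + 1 - l) / (2 * ((d : ℝ) + 1))) *
        (1 / (2 ^ (d - l) * (d.choose l : ℝ)))) ≤
      (f l d n : ℝ) / (2 ^ (n - l) * (n.choose l : ℝ)) := by
  obtain ⟨k, rfl⟩ := Nat.exists_eq_add_of_le hn
  have hne : {k' | ∃ S : Finset (Subcube (d + 1 + k)), IsCovering l d (d + 1 + k) S ∧
      S.card = k'}.Nonempty := by
    obtain ⟨S, hS⟩ := exists_covering (l := l) (d := d) (n := d + 1 + k) hld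
    exact ⟨_, S, hS, rfl⟩
  obtain ⟨S, hS, hc⟩ := Nat.sInf_mem hne
  have h := dens_one hld k S hS
  rw [hc] at h
  have hp : (0 : ℝ) < 2 ^ (d + 1 + k - l) * ((d + 1 + k).choose l : ℝ) := by
    have : (0 : ℝ) < ((d + 1 + k).choose l : ℝ) := by
      exact_mod_cast Nat.choose_pos (by omega)
    positivity
  rw [le_div_iff₀ hp]
  exact h

end Pool.Agent.W397.HC
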