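import Pool.Agent.W397.HC.Base

/-!
Covering `d`-subcubes by `l`-subcubes (MP_7c0edd_co): base case and induction on the dimension.
-/

open Finset

namespace Pool.Agent.W397.HC

/-- A subcube of `{0,1}^n`: the coordinate `i` is free when `c i = none`, and fixed to `b` when
`c i = some b`. -/
abbrev Subcube (n : ℕ) : Type := Fin n → Option Bool

/-- the vertices of a subcube -/
def verts {n : ℕ} (c : Subcube n) : Set (Fin n → Bool) := {x | ∀ i b, c i = some b → x i = b}

/-- the dimension of a subcube -/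
def dim {n : ℕ} (c : Subcube n) : ℕ := #{i | c i = none}

/-- `S` is a `(d, l)`-covering set of the `n`-cube -/
def IsCovering (l d n : ℕ) (S : Finset (Subcube n)) : Prop :=
  (∀ s ∈ S, dim s = l) ∧ ∀ D : Subcube n, dim D = d → ∃ s ∈ S, verts s ⊆ verts D

theorem sub_iff {n : ℕ} (s D : Subcube n) :
    verts s ⊆ verts D ↔ ∀ i b, D i = some b → s i = some b := by
  constructor
  · intro h i b hb
    have hx : (fun j => (s j).getD (!b)) ∈ verts s := by
      intro j c hc
      simp [hc]
    have h2 := h hx i b hb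
    cases hs : s i with
    | none =>
      simp only [hs, Option.getD_none] at h2
      cases b <;> simp at h2
    | some c =>
      simp only [hs, Option.getD_some] at h2
      rw [h2]
  · intro h x hx i b hb
    exact hx i b (h i b hb)

theorem card_fixed {n : ℕ} (s : Subcube n) : (#{i | s i ≠ none} : ℝ) = n - dim s := by
  have := card_filter_add_card_filter_not (s := (univ : Finset (Fin n))) (fun i => s i = none)
  rw [card_univ, Fintype.card_fin] at this
  have h2 : ((dim s : ℕ) : ℝ) + (#{i | s i ≠ none} : ℝ) = n := by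
    unfold dim
    exact_mod_cast this
  linarith

theorem dim_two {d : ℕ} (i j : Fin (d + 2)) (hij : i ≠ j) (a b : Bool) :
    dim (Function.update (Function.update (fun _ => none) i (some a)) j (some b) :
      Subcube (d + 2)) = d := by
  have h : (univ.filter (fun k : Fin (d + 2) => (Function.update (Function.update
      (fun _ => (none : Option Bool)) i (some a)) j (some b)) k = none)) =
      (univ.erase i).erase j := by
    ext k
    simp only [mem_filter, mem_univ, true_and, mem_erase, and_true]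
    by_cases hk : k = j
    · subst hk; simp
    · by_cases hk2 : k = i
      · subst hk2; simp [hk]
      · simp [hk, hk2]
  unfold dim
  rw [h, card_erase_of_mem (by simp [hij.symm]), card_erase_of_mem (mem_univ _), card_univ,
    Fintype.card_fin]
  omega

theorem base {l d : ℕ} (S : Finset (Subcube (d + 2))) (hS : IsCovering l d (d + 2) S) :
    ((d + 2 : ℕ) : ℝ) * (1 + Real.logb 2 ((d + 2 : ℕ) : ℝ)) ≤ S.card * (((d + 2 : ℕ) : ℝ) - l) := by
  classical
  set w : Fin (d + 2) → S → Option Bool := fun i s => s.1 i with hw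
  have h : ∀ i j, i ≠ j → ∀ a b : Bool, ∃ r, w i r = some a ∧ w j r = some b := by
    intro i j hij a b
    obtain ⟨s, hs, hsub⟩ := hS.2 _ (dim_two i j hij a b)
    rw [sub_iff] at hsub
    refine ⟨⟨s, hs⟩, ?_, ?_⟩
    · exact hsub i a (by simp [Function.update_of_ne hij])
    · exact hsub j b (by simp)
  have hpos : ∀ i, ∃ r, w i r ≠ none := by
    intro i
    obtain ⟨j, hj⟩ : ∃ j : Fin (d + 2), i ≠ j := by
      obtain ⟨j, hj⟩ := exists_ne i
      exact ⟨j, hj.symm⟩
    obtain ⟨r, h1, -⟩ := h i j hj true true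
    exact ⟨r, by rw [h1]; simp⟩
  have h1 := disj w h hpos
  have h2 := amgm (fun i => m (w i)) (by simp) h1
  rw [Fintype.card_fin] at h2
  refine h2.trans (le_of_eq ?_)
  have h3 : ∀ i, (m (w i) : ℝ) = ∑ s ∈ S, if s i ≠ none then (1 : ℝ) else 0 := by
    intro i
    unfold m
    rw [card_filter, ← Finset.sum_coe_sort S]
    push_cast
    rfl
  rw [sum_congr rfl (fun i _ => h3 i), sum_comm]
  have h4 : ∀ s ∈ S, (∑ i, if s i ≠ none then (1 : ℝ) else 0) = ((d + 2 : ℕ) : ℝ) - l := by
    intro s hs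
    have := card_fixed s
    rw [hS.1 s hs] at this
    rw [← this, card_filter]
    push_cast
    rfl
  rw [sum_congr rfl h4, sum_const, nsmul_eq_mul]

theorem dim_insert {n : ℕ} (i : Fin (n + 1)) (a : Option Bool) (D : Subcube n) :
    dim (i.insertNth a D : Subcube (n + 1)) = dim D + if a = none then 1 else 0 := by
  unfold dim
  rw [card_filter, card_filter, Fin.sum_univ_succAbove _ i]
  simp only [Fin.insertNth_apply_same, Fin.insertNth_apply_succAbove]
  rw [add_comm]

theorem facet {l d n : ℕ} (S : Finset (Subcube (n + 1))) (hS : IsCovering l d (n + 1) S)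
    (i : Fin (n + 1)) (a : Bool) :
    IsCovering l d n ((S.filter (fun s => s i = some a)).image (fun s => i.removeNth s)) := by
  classical
  constructor
  · intro t ht
    obtain ⟨s, hs, rfl⟩ := mem_image.1 ht
    obtain ⟨hs1, hs2⟩ := mem_filter.1 hs
    have h1 := dim_insert i (s i) (i.removeNth s)
    rw [Fin.insertNth_self_removeNth, hs2, hS.1 s hs1] at h1
    simpa using h1.symm
  · intro D hD
    have h1 := dim_insert i (some a) D
    obtain ⟨s, hs, hsub⟩ := hS.2 (i.insertNth (some a) D) (by rw [h1, hD]; simp)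
    rw [sub_iff] at hsub
    refine ⟨i.removeNth s, mem_image.2 ⟨s, mem_filter.2 ⟨hs, ?_⟩, rfl⟩, ?_⟩
    · exact hsub i a (by simp)
    · rw [sub_iff]
      intro j b hb
      exact hsub (i.succAbove j) b (by simpa using hb)

theorem chooseR {n l : ℕ} (h : l ≤ n) :
    ((n + 1).choose l : ℝ) * ((n : ℝ) + 1 - l) = ((n : ℝ) + 1) * (n.choose l : ℝ) := by
  have h1 := Nat.choose_mul_succ_eq n l
  have h2 : ((n + 1 - l : ℕ) : ℝ) = (n : ℝ) + 1 - l := by
    rw [Nat.cast_sub (by omega)]; push_cast; ring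
  have h3 : (n.choose l : ℝ) * ((n : ℝ) + 1) = ((n + 1).choose l : ℝ) * ((n + 1 - l : ℕ) : ℝ) := by
    exact_mod_cast h1
  rw [← h2, ← h3]
  ring

theorem step {l d n : ℕ} (hl : l ≤ n) (A : ℝ)
    (ih : ∀ S : Finset (Subcube n), IsCovering l d n S →
      A * (2 ^ (n - l) * (n.choose l : ℝ)) ≤ S.card)
    (S : Finset (Subcube (n + 1))) (hS : IsCovering l d (n + 1) S) :
    A * (2 ^ (n + 1 - l) * ((n + 1).choose l : ℝ)) ≤ S.card := by
  classical
  have h1 : ∀ (i : Fin (n + 1)) (a : Bool), A * (2 ^ (n - l) * (n.choose l : ℝ)) ≤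
      ((S.filter (fun s => s i = some a)).card : ℝ) := by
    intro i a
    refine (ih _ (facet S hS i a)).trans ?_
    exact_mod_cast card_image_le
  have h2 : (∑ i : Fin (n + 1), ∑ a : Bool, ((S.filter (fun s => s i = some a)).card : ℝ)) =
      S.card * (((n + 1 : ℕ) : ℝ) - l) := by
    have h3 : ∀ i : Fin (n + 1), (∑ a : Bool, ((S.filter (fun s => s i = some a)).card : ℝ)) =
        ∑ s ∈ S, if s i ≠ none then (1 : ℝ) else 0 := by
      intro i
      rw [Fintype.sum_bool, card_filter, card_filter]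
      push_cast
      rw [← sum_add_distrib]
      refine sum_congr rfl (fun s _ => ?_)
      cases h : s i with
      | none => simp
      | some c => cases c <;> simp
    rw [sum_congr rfl (fun i _ => h3 i), sum_comm]
    have h4 : ∀ s ∈ S, (∑ i, if s i ≠ none then (1 : ℝ) else 0) = ((n + 1 : ℕ) : ℝ) - l := by
      intro s hs
      have := card_fixed s
      rw [hS.1 s hs] at this
      rw [← this, card_filter]
      push_cast
      rfl
    rw [sum_congr rfl h4, sum_const, nsmul_eq_mul]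
  have h5 : (∑ i : Fin (n + 1), ∑ a : Bool, A * (2 ^ (n - l) * (n.choose l : ℝ))) ≤
      S.card * (((n + 1 : ℕ) : ℝ) - l) := by
    rw [← h2]
    exact sum_le_sum (fun i _ => sum_le_sum (fun a _ => h1 i a))
  simp only [sum_const, card_univ, Fintype.card_fin, Fintype.card_bool, nsmul_eq_mul] at h5
  have h6 : ((n + 1).choose l : ℝ) * (((n + 1 : ℕ) : ℝ) - l) = ((n + 1 : ℕ) : ℝ) * (n.choose l : ℝ) := by
    have := chooseR hl
    push_cast
    exact this
  have h7 : (0 : ℝ) < ((n + 1 : ℕ) : ℝ) - l := by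
    have : (l : ℝ) ≤ n := by exact_mod_cast hl
    push_cast
    linarith
  have h8 : (2 : ℝ) ^ (n + 1 - l) = 2 * 2 ^ (n - l) := by
    rw [Nat.sub_add_comm hl, pow_succ]; ring
  refine le_of_mul_le_mul_right ?_ h7
  calc A * (2 ^ (n + 1 - l) * ((n + 1).choose l : ℝ)) * (((n + 1 : ℕ) : ℝ) - l) =
      A * 2 ^ (n + 1 - l) * (((n + 1).choose l : ℝ) * (((n + 1 : ℕ) : ℝ) - l)) := by ring
    _ = ((n + 1 : ℕ) : ℝ) * (((2 : ℕ) : ℝ) * (A * (2 ^ (n - l) * (n.choose l : ℝ)))) := by
      rw [h6, h8]; push_cast; ring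
    _ ≤ _ := h5

theorem final0 {l d : ℕ} (hld : l < d) (S : Finset (Subcube (d + 2)))
    (hS : IsCovering l d (d + 2) S) :
      ((1 + Real.logb 2 ((d : ℝ) + 2)) / 4 * (((d : ℝ) + 1 - l) / (d + 1)) *
        (1 / (2 ^ (d - l) * (d.choose l : ℝ)))) *
        (2 ^ (d + 2 - l) * ((d + 2).choose l : ℝ)) ≤ S.card := by
  have h := base S hS
  have hd1 : ((d + 1).choose l : ℝ) * ((d : ℝ) + 1 - l) = ((d : ℝ) + 1) * (d.choose l : ℝ) :=
    chooseR hld.le
  have hd2 : ((d + 2).choose l : ℝ) * ((d : ℝ) + 2 - l) = ((d : ℝ) + 2) * ((d + 1).choose l : ℝ) := by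
    have := chooseR (n := d + 1) (l := l) (by omega)
    push_cast at this
    have e : (d : ℝ) + 1 + 1 = (d : ℝ) + 2 := by ring
    rw [e] at this
    exact this
  have hl : (l : ℝ) < d := by exact_mod_cast hld
  have hp : (2 : ℝ) ^ (d + 2 - l) = 4 * 2 ^ (d - l) := by
    rw [Nat.sub_add_comm hld.le, pow_add]; norm_num; ring
  have hc0 : (0 : ℝ) < d.choose l := by exact_mod_cast Nat.choose_pos hld.le
  have hp0 : (0 : ℝ) < 2 ^ (d - l) := by positivity
  have h7 : (0 : ℝ) < (d : ℝ) + 2 - l := by linarith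
  have hd0 : ((d : ℝ) + 1) ≠ 0 := by positivity
  refine le_of_mul_le_mul_right ?_ h7
  rw [hp]
  have e : ((1 + Real.logb 2 ((d : ℝ) + 2)) / 4 * (((d : ℝ) + 1 - l) / (d + 1)) *
      (1 / (2 ^ (d - l) * (d.choose l : ℝ)))) * (4 * 2 ^ (d - l) * ((d + 2).choose l : ℝ)) *
      ((d : ℝ) + 2 - l) = ((d : ℝ) + 2) * (1 + Real.logb 2 ((d : ℝ) + 2)) := by
    have e1 : ((1 + Real.logb 2 ((d : ℝ) + 2)) / 4 * (((d : ℝ) + 1 - l) / (d + 1)) *
      (1 / (2 ^ (d - l) * (d.choose l : ℝ)))) * (4 * 2 ^ (d - l) * ((d + 2).choose l : ℝ)) *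
      ((d : ℝ) + 2 - l) = (1 + Real.logb 2 ((d : ℝ) + 2)) * (((d : ℝ) + 1 - l) / (d + 1)) *
        (1 / (d.choose l : ℝ)) * (((d + 2).choose l : ℝ) * ((d : ℝ) + 2 - l)) := by
      field_simp
    rw [e1, hd2]
    have e2 : (1 + Real.logb 2 ((d : ℝ) + 2)) * (((d : ℝ) + 1 - l) / (d + 1)) *
        (1 / (d.choose l : ℝ)) * (((d : ℝ) + 2) * ((d + 1).choose l : ℝ)) =
        (1 + Real.logb 2 ((d : ℝ) + 2)) * ((d : ℝ) + 2) * (1 / ((d + 1) * (d.choose l : ℝ))) *
          (((d + 1).choose l : ℝ) * ((d : ℝ) + 1 - l)) := by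
      field_simp
    rw [e2, hd1]
    field_simp
  rw [e]
  have h' := h
  push_cast at h'
  exact h'

theorem final {l d : ℕ} (hld : l < d) (k : ℕ) :
    ∀ S : Finset (Subcube (d + 2 + k)), IsCovering l d (d + 2 + k) S →
      ((1 + Real.logb 2 ((d : ℝ) + 2)) / 4 * (((d : ℝ) + 1 - l) / (d + 1)) *
        (1 / (2 ^ (d - l) * (d.choose l : ℝ)))) *
        (2 ^ (d + 2 + k - l) * ((d + 2 + k).choose l : ℝ)) ≤ S.card := by
  induction k with
  | zero => exact fun S hS => final0 hld S hS
  | succ k ih =>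
    intro S hS
    exact step (by omega) _ ih S hS

/-- the minimal size of a `(d, l)`-covering set of the `n`-cube -/
noncomputable def f (l d n : ℕ) : ℕ :=
  sInf {k | ∃ S : Finset (Subcube n), IsCovering l d n S ∧ S.card = k}

theorem exists_covering {l d n : ℕ} (hld : l < d) :
    ∃ S : Finset (Subcube n), IsCovering l d n S := by
  classical
  refine ⟨univ.filter (fun s => dim s = l), fun s hs => (mem_filter.1 hs).2, fun D hD => ?_⟩
  have hle : l ≤ (univ.filter (fun i => D i = none)).card := by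
    have : (univ.filter (fun i => D i = none)).card = d := hD
    omega
  obtain ⟨L, hL, hLc⟩ := exists_subset_card_eq hle
  refine ⟨fun i => if i ∈ L then none else some ((D i).getD false), ?_, ?_⟩
  · rw [mem_filter]
    refine ⟨mem_univ _, ?_⟩
    unfold dim
    rw [← hLc]
    congr 1
    ext i
    simp
  · rw [sub_iff]
    intro i b hb
    have : i ∉ L := by
      intro hi
      have := (mem_filter.1 (hL hi)).2
      rw [this] at hb
      simp at hb
    simp [this, hb]

theorem main {l d n : ℕ} (hld : l < d) (hn : d + 2 ≤ n) :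
    ((1 + Real.logb 2 ((d : ℝ) + 2)) / 4 * (((d : ℝ) + 1 - l) / (d + 1)) *
        (1 / (2 ^ (d - l) * (d.choose l : ℝ)))) ≤
      (f l d n : ℝ) / (2 ^ (n - l) * (n.choose l : ℝ)) := by
  obtain ⟨k, rfl⟩ := Nat.exists_eq_add_of_le hn
  have hne : {k' | ∃ S : Finset (Subcube (d + 2 + k)), IsCovering l d (d + 2 + k) S ∧
      S.card = k'}.Nonempty := by
    obtain ⟨S, hS⟩ := exists_covering (l := l) (d := d) (n := d + 2 + k) hld
    exact ⟨_, S, hS, rfl⟩
  obtain ⟨S, hS, hc⟩ := Nat.sInf_mem hne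
  have h := final hld k S hS
  rw [hc] at h
  have hp : (0 : ℝ) < 2 ^ (d + 2 + k - l) * ((d + 2 + k).choose l : ℝ) := by
    have : (0 : ℝ) < ((d + 2 + k).choose l : ℝ) := by
      exact_mod_cast Nat.choose_pos (by omega)
    positivity
  rw [le_div_iff₀ hp]
  exact h

end Pool.Agent.W397.HC
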