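import Pool.Agent.W397.HC.Main

/-!
Covering `d`-subcubes by `l`-subcubes (MP_7c0edd_co): the cubes of dimension `d + 1` and `d + 2`.
-/

open Finset

namespace Pool.Agent.W397.HC

theorem fixed_card {n : ℕ} (s : Subcube n) : #{i | s i ≠ none} + dim s = n := by
  have := card_filter_add_card_filter_not (s := (univ : Finset (Fin n))) (fun i => s i = none)
  rw [card_univ, Fintype.card_fin] at this
  unfold dim
  simp only [ne_eq]
  omega

theorem dim_one {d : ℕ} (i : Fin (d + 1)) (a : Bool) :
    dim (Function.update (fun _ => none) i (some a) : Subcube (d + 1)) = d := by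
  have h : (univ.filter (fun k : Fin (d + 1) => (Function.update
      (fun _ => (none : Option Bool)) i (some a)) k = none)) = univ.erase i := by
    ext k
    simp only [mem_filter, mem_univ, true_and, mem_erase, and_true]
    by_cases hk : k = i
    · subst hk; simp
    · simp [hk]
  unfold dim
  rw [h, card_erase_of_mem (mem_univ _), card_univ, Fintype.card_fin]
  omega

/-- the counting lower bound in the cube of dimension `d + 1` -/
theorem lower_one {l d : ℕ} (S : Finset (Subcube (d + 1))) (hS : IsCovering l d (d + 1) S) :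
    2 * ((d : ℝ) + 1) ≤ S.card * ((d : ℝ) + 1 - l) := by
  classical
  have h1 : ∀ i : Fin (d + 1), (2 : ℝ) ≤ ∑ s ∈ S, if s i ≠ none then (1 : ℝ) else 0 := by
    intro i
    have h3 : (∑ a : Bool, ((S.filter (fun s => s i = some a)).card : ℝ)) =
        ∑ s ∈ S, if s i ≠ none then (1 : ℝ) else 0 := by
      rw [Fintype.sum_bool, card_filter, card_filter]
      push_cast
      rw [← sum_add_distrib]
      refine sum_congr rfl (fun s _ => ?_)
      cases h : s i with
      | none => simp
      | some c => cases c <;> simp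
    rw [← h3, Fintype.sum_bool]
    have h4 : ∀ a : Bool, (1 : ℝ) ≤ ((S.filter (fun s => s i = some a)).card : ℝ) := by
      intro a
      obtain ⟨s, hs, hsub⟩ := hS.2 _ (dim_one i a)
      rw [sub_iff] at hsub
      have : 0 < (S.filter (fun s => s i = some a)).card :=
        card_pos.2 ⟨s, mem_filter.2 ⟨hs, hsub i a (by simp)⟩⟩
      exact_mod_cast this
    linarith [h4 true, h4 false]
  have h2 : (∑ i : Fin (d + 1), ∑ s ∈ S, if s i ≠ none then (1 : ℝ) else 0) =
      S.card * ((d : ℝ) + 1 - l) := by
    rw [sum_comm]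
    have h4 : ∀ s ∈ S, (∑ i, if s i ≠ none then (1 : ℝ) else 0) = (d : ℝ) + 1 - l := by
      intro s hs
      have := card_fixed s
      rw [hS.1 s hs] at this
      push_cast at this
      rw [← this, card_filter]
      push_cast
      rfl
    rw [sum_congr rfl h4, sum_const, nsmul_eq_mul]
  rw [← h2]
  have h5 := sum_le_sum (fun i (_ : i ∈ (univ : Finset (Fin (d + 1)))) => h1 i)
  rw [sum_const, card_univ, Fintype.card_fin, nsmul_eq_mul] at h5
  push_cast at h5
  linarith

/-- position of the coordinate `i` in row `r` -/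
def pos (n c r : ℕ) (i : ℕ) : ℕ := (i + (n - 1) * (r * c)) % n

theorem pos_spec {n c r i : ℕ} (hn : 0 < n) (hi : i < n) : (r * c + pos n c r i) % n = i := by
  unfold pos
  rw [Nat.add_mod_mod]
  obtain ⟨m, rfl⟩ : ∃ m, n = m + 1 := ⟨n - 1, by omega⟩
  have : r * c + (i + (m + 1 - 1) * (r * c)) = i + (m + 1) * (r * c) := by
    rw [Nat.add_sub_cancel]; ring
  rw [this, Nat.add_mul_mod_self_left, Nat.mod_eq_of_lt hi]

theorem pos_eq {n c r i t : ℕ} (hn : 0 < n) (hi : i < n) (ht : t < n) (h : (r * c + t) % n = i) :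
    pos n c r i = t := by
  have h1 := pos_spec (c := c) (r := r) hn hi
  have h2 : pos n c r i < n := Nat.mod_lt _ hn
  have h3 : (r * c + pos n c r i) % n = (r * c + t) % n := by rw [h1, h]
  have h4 : pos n c r i ≡ t [MOD n] := Nat.ModEq.add_left_cancel' (r * c) h3
  have h5 : pos n c r i % n = t % n := h4
  rwa [Nat.mod_eq_of_lt h2, Nat.mod_eq_of_lt ht] at h5

/-- the rows of the covering set of the cube of dimension `d + 1` -/
def row (n c r : ℕ) : Subcube n := fun i =>
  if pos n c r i < c then some (decide (n ≤ r * c + pos n c r i)) else none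

theorem dim_row {n c r : ℕ} (hn : 0 < n) (hc : c ≤ n) : dim (row n c r) = n - c := by
  have h1 := fixed_card (row n c r)
  have h2 : #{i | row n c r i ≠ none} = c := by
    have h3 : (univ.filter (fun i => row n c r i ≠ none)) =
        univ.filter (fun i : Fin n => pos n c r i < c) := by
      ext i
      simp [row]
    rw [h3]
    set φ : Fin n → Fin n := fun i => ⟨pos n c r i, Nat.mod_lt _ hn⟩ with hφ
    have hinj : Function.Injective φ := by
      intro i j hij
      have h4 : pos n c r i = pos n c r j := congrArg Fin.val hij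
      have h5 := pos_spec (c := c) (r := r) hn i.2
      have h6 := pos_spec (c := c) (r := r) hn j.2
      rw [h4] at h5
      exact Fin.ext (h5.symm.trans h6)
    have hbij : Function.Bijective φ := Finite.injective_iff_bijective.1 hinj
    have h7 : #(univ.filter (fun i : Fin n => pos n c r i < c)) =
        #(univ.filter (fun j : Fin n => (j : ℕ) < c)) := by
      refine card_bij (fun i _ => φ i) ?_ ?_ ?_
      · intro i hi
        simpa [hφ] using hi
      · intro i _ j _ h
        exact hinj h
      · intro j hj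
        obtain ⟨i, rfl⟩ := hbij.2 j
        exact ⟨i, by simpa [hφ] using hj, rfl⟩
    rw [h7]
    have h8 : #(univ.filter (fun j : Fin n => (j : ℕ) < c)) = #(range c) := by
      refine card_bij (fun j _ => (j : ℕ)) ?_ ?_ ?_
      · intro j hj; simpa using hj
      · intro i _ j _ h; exact Fin.ext h
      · intro t ht
        have : t < c := by simpa using ht
        exact ⟨⟨t, by omega⟩, by simpa using this, rfl⟩
    rw [h8, card_range]
  omega

theorem upper_one {l d : ℕ} (hld : l < d) (k : ℕ) (hk : 2 * (d + 1) ≤ k * (d + 1 - l)) :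
    ∃ S : Finset (Subcube (d + 1)), IsCovering l d (d + 1) S ∧ S.card ≤ k := by
  classical
  set n := d + 1 with hn
  set c := n - l with hc
  have hc0 : 0 < c := by omega
  refine ⟨(range k).image (fun r => row n c r), ⟨?_, ?_⟩, card_image_le.trans (by simp)⟩
  · intro s hs
    obtain ⟨r, -, rfl⟩ := mem_image.1 hs
    rw [dim_row (by omega) (by omega)]
    omega
  · intro D hD
    have h1 := fixed_card D
    have h2 : #{i | D i ≠ none} = 1 := by omega
    obtain ⟨i, hi⟩ := card_eq_one.1 h2
    have hi1 : D i ≠ none := by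
      have : i ∈ (univ.filter (fun i => D i ≠ none)) := by rw [hi]; simp
      simpa using this
    have hi2 : ∀ j, D j ≠ none → j = i := by
      intro j hj
      have : j ∈ (univ.filter (fun i => D i ≠ none)) := by simpa using hj
      rw [hi] at this
      simpa using this
    obtain ⟨b, hb⟩ := Option.ne_none_iff_exists'.1 hi1
    set p : ℕ := if b then n + i else i with hp
    have hp1 : p < 2 * n := by
      have := i.2
      rw [hp]; split_ifs <;> omega
    have hp2 : p % n = i := by
      rw [hp]; split_ifs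
      · rw [Nat.add_mod_left, Nat.mod_eq_of_lt i.2]
      · exact Nat.mod_eq_of_lt i.2
    have hp3 : p / c < k := by
      rw [Nat.div_lt_iff_lt_mul hc0]
      omega
    have hp4 : p / c * c + p % c = p := Nat.div_add_mod' p c
    have hp5 : p % c < c := Nat.mod_lt _ hc0
    have hpos : pos n c (p / c) i = p % c := by
      refine pos_eq (by omega) i.2 (by omega) ?_
      rw [hp4, hp2]
    refine ⟨row n c (p / c), mem_image.2 ⟨p / c, mem_range.2 hp3, rfl⟩, ?_⟩
    rw [sub_iff]
    intro j b' hb'
    have hji : j = i := hi2 j (by rw [hb']; simp)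
    subst hji
    rw [hb] at hb'
    have hbb : b = b' := Option.some.inj hb'
    subst hbb
    unfold row
    rw [hpos, if_pos hp5, hp4]
    congr 1
    have hin := j.2
    rw [hp]
    cases b
    · simp
    · simp

/-- the values of the rows in the cube of dimension `d + 2` -/
def val {k : ℕ} : (Fin k × Bool) ⊕ Bool → ℕ → Bool
  | Sum.inl (j, e) => fun i => xor (i.testBit j) e
  | Sum.inr b => fun _ => b

theorem val_spec {k i j : ℕ} (hi : i < 2 ^ k) (hj : j < 2 ^ k) (hij : i ≠ j) (a b : Bool) :
    ∃ ρ : (Fin k × Bool) ⊕ Bool, val ρ i = a ∧ val ρ j = b := by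
  by_cases hab : a = b
  · subst hab
    exact ⟨Sum.inr a, rfl, rfl⟩
  · obtain ⟨t, ht⟩ : ∃ t, i.testBit t ≠ j.testBit t := by
      by_contra hcon
      push Not at hcon
      exact hij (Nat.eq_of_testBit_eq hcon)
    have htk : t < k := by
      by_contra hcon
      push Not at hcon
      have h1 : i.testBit t = false :=
        Nat.testBit_lt_two_pow (lt_of_lt_of_le hi (Nat.pow_le_pow_right (by norm_num) hcon))
      have h2 : j.testBit t = false :=
        Nat.testBit_lt_two_pow (lt_of_lt_of_le hj (Nat.pow_le_pow_right (by norm_num) hcon))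
      exact ht (h1.trans h2.symm)
    refine ⟨Sum.inl (⟨t, htk⟩, xor (i.testBit t) a), ?_, ?_⟩
    · simp [val]
    · simp only [val]
      revert ht hab
      cases i.testBit t <;> cases j.testBit t <;> cases a <;> cases b <;> simp

/-- the rows of the covering set of the cube of dimension `d + 2` -/
def row2 (n l k : ℕ) (z : Fin 3 × ((Fin k × Bool) ⊕ Bool)) : Subcube n := fun i =>
  if (z.1 : ℕ) * l ≤ (i : ℕ) ∧ (i : ℕ) < ((z.1 : ℕ) + 1) * l then none else some (val z.2 i)

theorem dim_row2 {n l k : ℕ} (h3 : 3 * l ≤ n) (z : Fin 3 × ((Fin k × Bool) ⊕ Bool)) :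
    dim (row2 n l k z) = l := by
  unfold dim
  have h1 : (univ.filter (fun i => row2 n l k z i = none)) =
      univ.filter (fun i : Fin n => (z.1 : ℕ) * l ≤ (i : ℕ) ∧ (i : ℕ) < ((z.1 : ℕ) + 1) * l) := by
    ext i
    simp [row2]
  rw [h1]
  have hz := z.1.2
  have hz3 : ((z.1 : ℕ) + 1) * l ≤ n := by
    have : ((z.1 : ℕ) + 1) * l ≤ 3 * l := Nat.mul_le_mul_right _ (by omega)
    omega
  have h8 : #(univ.filter (fun i : Fin n => (z.1 : ℕ) * l ≤ (i : ℕ) ∧ (i : ℕ) < ((z.1 : ℕ) + 1) * l)) =
      #(Finset.Ico ((z.1 : ℕ) * l) (((z.1 : ℕ) + 1) * l)) := by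
    refine card_bij (fun j _ => (j : ℕ)) ?_ ?_ ?_
    · intro j hj; simpa using hj
    · intro i _ j _ h; exact Fin.ext h
    · intro t ht
      have ht' := Finset.mem_Ico.1 ht
      exact ⟨⟨t, by omega⟩, by simpa using ht', rfl⟩
  rw [h8, Nat.card_Ico]
  have : ((z.1 : ℕ) + 1) * l = (z.1 : ℕ) * l + l := by ring
  omega

theorem upper_two {l d : ℕ} (h3 : 3 * l ≤ d + 2) :
    ∃ S : Finset (Subcube (d + 2)), IsCovering l d (d + 2) S ∧
      S.card ≤ 6 * Nat.clog 2 (d + 2) + 6 := by
  classical
  set k := Nat.clog 2 (d + 2) with hk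
  have hn : d + 2 ≤ 2 ^ k := Nat.le_pow_clog (by norm_num) _
  refine ⟨univ.image (fun z => row2 (d + 2) l k z), ⟨?_, ?_⟩, card_image_le.trans ?_⟩
  · intro s hs
    obtain ⟨z, -, rfl⟩ := mem_image.1 hs
    exact dim_row2 h3 z
  · intro D hD
    have h1 := fixed_card D
    have h2 : #{i | D i ≠ none} = 2 := by omega
    obtain ⟨i, j, hij, hset⟩ := card_eq_two.1 h2
    have hi1 : D i ≠ none := by
      have : i ∈ (univ.filter (fun i => D i ≠ none)) := by rw [hset]; simp
      simpa using this
    have hj1 : D j ≠ none := by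
      have : j ∈ (univ.filter (fun i => D i ≠ none)) := by rw [hset]; simp
      simpa using this
    have hall : ∀ t, D t ≠ none → t = i ∨ t = j := by
      intro t ht
      have : t ∈ (univ.filter (fun i => D i ≠ none)) := by simpa using ht
      rw [hset] at this
      simpa using this
    obtain ⟨a, ha⟩ := Option.ne_none_iff_exists'.1 hi1
    obtain ⟨b, hb⟩ := Option.ne_none_iff_exists'.1 hj1
    have hij' : (i : ℕ) ≠ (j : ℕ) := fun h => hij (Fin.ext h)
    obtain ⟨ρ, hρ1, hρ2⟩ := val_spec (lt_of_lt_of_le i.2 hn) (lt_of_lt_of_le j.2 hn) hij' a b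
    obtain ⟨q, hq1, hq2⟩ : ∃ q : Fin 3,
        ¬ ((q : ℕ) * l ≤ (i : ℕ) ∧ (i : ℕ) < ((q : ℕ) + 1) * l) ∧
        ¬ ((q : ℕ) * l ≤ (j : ℕ) ∧ (j : ℕ) < ((q : ℕ) + 1) * l) := by
      by_contra hcon
      push Not at hcon
      have c0 := hcon 0
      have c1 := hcon 1
      have c2 := hcon 2
      simp only [Fin.val_zero, Fin.val_one, Fin.val_two, zero_mul, zero_add, one_mul] at c0 c1 c2
      norm_num at c0 c1 c2
      omega
    refine ⟨row2 (d + 2) l k (q, ρ), mem_image.2 ⟨(q, ρ), mem_univ _, rfl⟩, ?_⟩
    rw [sub_iff]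
    intro t c ht
    rcases hall t (by rw [ht]; simp) with h | h
    · subst h
      rw [ha] at ht
      unfold row2
      rw [if_neg hq1]
      simp only
      rw [hρ1]
      exact ht
    · subst h
      rw [hb] at ht
      unfold row2
      rw [if_neg hq2]
      simp only
      rw [hρ2]
      exact ht
  · rw [card_univ]
    simp
    omega

end Pool.Agent.W397.HC
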