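import Pool.Agent.Helper923.PNT

/-!
Colouring the grid with no three collinear points of one colour (MP_1efb31_co).
-/

open Finset Filter

namespace Pool.Agent.W397.Three

/-- the grid can be coloured with `k` colours -/
def Admissible (n k : ℕ) : Prop :=
  ∃ col : ℕ × ℕ → ℕ, (∀ P ∈ Icc 1 n ×ˢ Icc 1 n, col P < k) ∧
    ∀ P ∈ Icc 1 n ×ˢ Icc 1 n, ∀ Q ∈ Icc 1 n ×ˢ Icc 1 n, ∀ R ∈ Icc 1 n ×ˢ Icc 1 n,
      P ≠ Q → P ≠ R → Q ≠ R → col P = col Q → col P = col R →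
      ¬ ∃ a b c : ℝ, (a ≠ 0 ∨ b ≠ 0) ∧ a * P.1 + b * P.2 = c ∧ a * Q.1 + b * Q.2 = c ∧
        a * R.1 + b * R.2 = c

theorem det_zero {a b c x0 y0 x1 y1 x2 y2 : ℝ} (hab : a ≠ 0 ∨ b ≠ 0) (h0 : a * x0 + b * y0 = c)
    (h1 : a * x1 + b * y1 = c) (h2 : a * x2 + b * y2 = c) :
    (x1 - x0) * (y2 - y0) = (x2 - x0) * (y1 - y0) := by
  have e1 : a * (x1 - x0) + b * (y1 - y0) = 0 := by linear_combination h1 - h0
  have e2 : a * (x2 - x0) + b * (y2 - y0) = 0 := by linear_combination h2 - h0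
  rcases hab with ha | hb
  · have : a * ((x1 - x0) * (y2 - y0) - (x2 - x0) * (y1 - y0)) = 0 := by
      linear_combination (y2 - y0) * e1 - (y1 - y0) * e2
    have := (mul_eq_zero.1 this).resolve_left ha
    linarith
  · have : b * ((x1 - x0) * (y2 - y0) - (x2 - x0) * (y1 - y0)) = 0 := by
      linear_combination (x1 - x0) * e2 - (x2 - x0) * e1
    have := (mul_eq_zero.1 this).resolve_left hb
    linarith

theorem eq_of_cast {n p x y : ℕ} (hp : n ≤ p) (hx : x ∈ Icc 1 n) (hy : y ∈ Icc 1 n)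
    (h : (x : ZMod p) = (y : ZMod p)) : x = y := by
  rw [ZMod.natCast_eq_natCast_iff] at h
  have hx' := mem_Icc.1 hx
  have hy' := mem_Icc.1 hy
  refine Nat.ModEq.eq_of_abs_lt h ?_
  rw [abs_lt]
  constructor <;> omega

theorem prime_colouring {n p : ℕ} (hp : p.Prime) (hn : n ≤ p) : Admissible n p := by
  have hF : Fact p.Prime := ⟨hp⟩
  have hN : NeZero p := ⟨hp.ne_zero⟩
  refine ⟨fun P => ((P.2 : ZMod p) - (P.1 : ZMod p) ^ 2).val, fun P _ => ZMod.val_lt _, ?_⟩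
  rintro ⟨x0, y0⟩ hP ⟨x1, y1⟩ hQ ⟨x2, y2⟩ hR h01 h02 h12 hc1 hc2 ⟨a, b, c, hab, e0, e1, e2⟩
  simp only [mem_product] at hP hQ hR
  have hc1' := ZMod.val_injective p hc1
  have hc2' := ZMod.val_injective p hc2
  simp only at hc1' hc2' e0 e1 e2
  have hdet := det_zero hab e0 e1 e2
  have hdetZ : ((x1 : ℤ) - x0) * ((y2 : ℤ) - y0) = ((x2 : ℤ) - x0) * ((y1 : ℤ) - y0) := by
    exact_mod_cast hdet
  have hdetp : ((x1 : ZMod p) - x0) * ((y2 : ZMod p) - y0) =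
      ((x2 : ZMod p) - x0) * ((y1 : ZMod p) - y0) := by
    have := congrArg (Int.cast : ℤ → ZMod p) hdetZ
    push_cast at this
    exact this
  have hy1 : (y1 : ZMod p) - y0 = (x1 : ZMod p) ^ 2 - (x0 : ZMod p) ^ 2 := by
    linear_combination -hc1'
  have hy2 : (y2 : ZMod p) - y0 = (x2 : ZMod p) ^ 2 - (x0 : ZMod p) ^ 2 := by
    linear_combination -hc2'
  have hprod : (((x1 : ZMod p) - x0) * ((x2 : ZMod p) - x0)) * ((x2 : ZMod p) - x1) = 0 := by
    rw [hy1, hy2] at hdetp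
    linear_combination hdetp
  have key : ∀ {x y x' y' : ℕ}, x ∈ Icc 1 n → y ∈ Icc 1 n → x' ∈ Icc 1 n → y' ∈ Icc 1 n →
      (y : ZMod p) - (x : ZMod p) ^ 2 = (y' : ZMod p) - (x' : ZMod p) ^ 2 →
      (x : ZMod p) = (x' : ZMod p) → ((x, y) : ℕ × ℕ) = (x', y') := by
    intro x y x' y' hx hy hx' hy' h1 h2
    have e1 : x = x' := eq_of_cast hn hx hx' h2
    have e2 : (y : ZMod p) = (y' : ZMod p) := by
      rw [h2] at h1
      linear_combination h1
    have e3 : y = y' := eq_of_cast hn hy hy' e2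
    rw [e1, e3]
  rcases mul_eq_zero.1 hprod with h | h
  · rcases mul_eq_zero.1 h with h | h
    · exact h01 (key hP.1 hP.2 hQ.1 hQ.2 hc1' (sub_eq_zero.1 h).symm)
    · exact h02 (key hP.1 hP.2 hR.1 hR.2 hc2' (sub_eq_zero.1 h).symm)
  · exact h12 (key hQ.1 hQ.2 hR.1 hR.2 (hc1'.symm.trans hc2') (sub_eq_zero.1 h).symm)

/-- primes in short intervals, from the prime number theorem -/
theorem prime_between (ε : ℝ) (hε : 0 < ε) :
    ∀ᶠ n : ℕ in atTop, ∃ p : ℕ, p.Prime ∧ n ≤ p ∧ (p : ℝ) ≤ (1 + ε) * n := by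
  have h1 := Pool.Agent.Helper923.PNT.theta_div_tendsto
  have h2 : Tendsto (fun n : ℕ => Chebyshev.theta ((n : ℝ)) / (n : ℝ)) atTop (nhds 1) :=
    h1.comp tendsto_natCast_atTop_atTop
  have h3 : Tendsto (fun n : ℕ => Chebyshev.theta ((1 + ε) * (n : ℝ)) / ((1 + ε) * (n : ℝ))) atTop
      (nhds 1) :=
    h1.comp (tendsto_natCast_atTop_atTop.const_mul_atTop (by linarith))
  have h4 : Tendsto (fun n : ℕ => (1 + ε) * (Chebyshev.theta ((1 + ε) * (n : ℝ)) /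
      ((1 + ε) * (n : ℝ))) - Chebyshev.theta ((n : ℝ)) / (n : ℝ)) atTop (nhds ((1 + ε) * 1 - 1)) :=
    (h3.const_mul _).sub h2
  have h5 : (0 : ℝ) < (1 + ε) * 1 - 1 := by linarith
  filter_upwards [(tendsto_order.1 h4).1 0 h5, eventually_gt_atTop 0] with n hn hn0
  by_contra hcon
  push Not at hcon
  have hn' : (0 : ℝ) < n := by exact_mod_cast hn0
  have heq : Chebyshev.theta ((1 + ε) * (n : ℝ)) = Chebyshev.theta (n : ℝ) := by
    unfold Chebyshev.theta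
    symm
    refine sum_subset ?_ ?_
    · intro q hq
      simp only [mem_filter, mem_Ioc] at hq ⊢
      refine ⟨⟨hq.1.1, hq.1.2.trans (Nat.floor_mono (by nlinarith))⟩, hq.2⟩
    · intro q hq hq2
      exfalso
      simp only [mem_filter, mem_Ioc, not_and, not_le, Nat.floor_natCast] at hq hq2
      by_cases hqn : q ≤ n
      · exact hq2 ⟨hq.1.1, hqn⟩ hq.2
      · have := hcon q hq.2 (by omega)
        have h6 := Nat.floor_le (show (0 : ℝ) ≤ (1 + ε) * n by positivity)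
        have h7 : (q : ℝ) ≤ ⌊(1 + ε) * (n : ℝ)⌋₊ := by exact_mod_cast hq.1.2
        linarith
  rw [heq] at hn
  have : (1 + ε) * (Chebyshev.theta (n : ℝ) / ((1 + ε) * (n : ℝ))) = Chebyshev.theta (n : ℝ) / n := by
    field_simp
  rw [this] at hn
  linarith

end Pool.Agent.W397.Three
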